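import Pool.Agent.Lib.helper14.FI6

set_option autoImplicit false

namespace Pool.Agent.Results.MP_efa40c_ag.Counter

open MvPolynomial

/-- Forms of degree d in n+1 variables vanishing to order at least m i at the point with
homogeneous coordinates p i, for every i. -/
noncomputable def linSys (n d s : ℕ) (m : Fin s → ℕ) (p : Fin s → Fin (n + 1) → ℂ) :
    Submodule ℂ (MvPolynomial (Fin (n + 1)) ℂ) :=
  homogeneousSubmodule (Fin (n + 1)) ℂ d ⊓
    ⨅ i, Submodule.restrictScalars ℂ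
      (Ideal.span (Set.range (fun j => (X j - C (p i j) : MvPolynomial (Fin (n + 1)) ℂ))) ^ m i)

/-- k_I = max(sum of m i over I minus r d, 0) with r = |I| - 1 (so k of the empty set is d). -/
def kI (d s : ℕ) (m : Fin s → ℕ) (I : Finset (Fin s)) : ℕ :=
  Int.toNat ((∑ i ∈ I, (m i : ℤ)) - ((I.card : ℤ) - 1) * d)

/-- Linear virtual dimension: sum over all I with |I| = r + 1 at most min(n, s). -/
def lvdim (n d s : ℕ) (m : Fin s → ℕ) : ℤ :=
  ∑ I ∈ (Finset.univ : Finset (Finset (Fin s))).filter (fun I => I.card ≤ min n s),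
    (-1 : ℤ) ^ I.card * ((n + kI d s m I - I.card).choose n : ℤ)

open Classical in
/-- Linear expected dimension. -/
noncomputable def ldim (n d s : ℕ) (m : Fin s → ℕ) : ℤ :=
  if ∃ m' : Fin s → ℕ, (∀ i, m' i ≤ m i) ∧ lvdim n d s m' < 0 then 0 else max (lvdim n d s m) 0

theorem mem_linSys (n d s m : ℕ) (p : Fin s → Fin (n + 1) → ℂ)
    (F : MvPolynomial (Fin (n + 1)) ℂ) (hF : F.IsHomogeneous d)
    (h : ∀ i, F ∈ Ideal.span
      (Set.range (fun j => (X j - C (p i j) : MvPolynomial (Fin (n + 1)) ℂ))) ^ m) :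
    F ∈ linSys n d s (fun _ => m) p :=
  ⟨hF, (Submodule.mem_iInf _).mpr h⟩

theorem lv : lvdim 4 38 9 (fun _ => 22) = 600 := by decide +kernel

theorem key (m : ℕ) (hm : m = 22) (G : MvPolynomial (Fin 9 × Fin (4 + 1)) ℂ) (hG : G ≠ 0) :
    ∃ p : Fin 9 → Fin (4 + 1) → ℂ, eval (fun x => p x.1 x.2) G ≠ 0 ∧
      601 ≤ Module.finrank ℂ (linSys 4 38 9 (fun _ => m) p) := by
  obtain ⟨a, ha, hb⟩ := Pool.Agent.FI.dense G hG
  exact ⟨a, ha, Pool.Agent.FI.fat a hb _ inf_le_left m hm (mem_linSys 4 38 9 m a)⟩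

theorem result :
    (lvdim 4 38 9 (fun _ => 22) = 600 ∧
      ∀ G : MvPolynomial (Fin 9 × Fin (4 + 1)) ℂ, G ≠ 0 →
        ∃ p : Fin 9 → Fin (4 + 1) → ℂ, eval (fun x => p x.1 x.2) G ≠ 0 ∧
          601 ≤ Module.finrank ℂ (linSys 4 38 9 (fun _ => 22) p)) ∧
    ¬ (∀ n d m s : ℕ, 0 < n → 0 < d → 0 < m → 0 < s →
        s ≠ n + 3 → s ≠ n + 4 → ¬ (n = 2 ∧ (s = 7 ∨ s = 8)) → ¬ (n = 3 ∧ s = 9 ∧ 2 * m ≤ d) →
        ¬ (n = 4 ∧ s = 14 ∧ d = 2 * m ∧ (m = 2 ∨ m = 3)) →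
        ∃ G : MvPolynomial (Fin s × Fin (n + 1)) ℂ, G ≠ 0 ∧
          ∀ p : Fin s → Fin (n + 1) → ℂ, eval (fun x => p x.1 x.2) G ≠ 0 →
            (Module.finrank ℂ (linSys n d s (fun _ => m) p) : ℤ) = ldim n d s (fun _ => m)) := by
  refine ⟨⟨lv, key 22 rfl⟩, fun H => ?_⟩
  obtain ⟨G, hG, h⟩ := H 4 38 22 9 (by norm_num) (by norm_num) (by norm_num) (by norm_num)
    (by norm_num) (by norm_num) (by norm_num) (by norm_num) (by norm_num)
  obtain ⟨p, hp, h1⟩ := key 22 rfl G hG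
  have h2 := h p hp
  have h3 : ldim 4 38 9 (fun _ => 22) ≤ 600 := by
    rw [ldim, lv]
    split_ifs <;> norm_num
  omega

end Pool.Agent.Results.MP_efa40c_ag.Counter
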